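import Mathlib

/-!
# Covering dimension and maps with small fibres
-/

set_option autoImplicit false

namespace Run7.h5.FD

/-- The (Lebesgue) covering dimension of `X` is at most `m`: every finite open cover of `X` has a
finite open refinement such that every point lies in at most `m + 1` of its members. -/
def CovDimLE (X : Type) [TopologicalSpace X] (m : ℕ) : Prop :=
  ∀ (ι : Type) [Finite ι] (U : ι → Set X), (∀ i, IsOpen (U i)) → (⋃ i, U i) = Set.univ →
    ∃ (κ : Type) (_ : Finite κ) (V : κ → Set X), (∀ k, IsOpen (V k)) ∧ (⋃ k, V k) = Set.univ ∧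
      (∀ k, ∃ i, V k ⊆ U i) ∧ ∀ x, Set.ncard {k | x ∈ V k} ≤ m + 1

theorem unif_of_fibres {X : Type} [MetricSpace X] [CompactSpace X] {d : ℕ} {δ : ℝ}
    (π : X → Fin d → ℝ) (hπ : Continuous π) (hfib : ∀ x y, π x = π y → dist x y < δ) :
    ∃ η : ℝ, 0 < η ∧ ∀ x y, (∀ j, |π x j - π y j| < 2 * η) → dist x y < δ := by
  have hK : IsCompact {q : X × X | δ ≤ dist q.1 q.2} :=
    (isClosed_le continuous_const continuous_dist).isCompact
  rcases Set.eq_empty_or_nonempty {q : X × X | δ ≤ dist q.1 q.2} with he | hne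
  · refine ⟨1, one_pos, fun x y _ => ?_⟩
    by_contra hcon
    have : (x, y) ∈ {q : X × X | δ ≤ dist q.1 q.2} := not_lt.1 hcon
    rw [he] at this
    exact this
  · obtain ⟨q, hq, hmin⟩ := hK.exists_isMinOn hne
      (f := fun q : X × X => dist (π q.1) (π q.2))
      ((hπ.comp continuous_fst).dist (hπ.comp continuous_snd)).continuousOn
    have hpos : 0 < dist (π q.1) (π q.2) := by
      rw [dist_pos]
      intro h
      exact absurd (hfib _ _ h) (not_lt.2 hq)
    refine ⟨dist (π q.1) (π q.2) / 2, by positivity, fun x y hxy => ?_⟩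
    by_contra hcon
    have h1 : dist (π q.1) (π q.2) ≤ dist (π x) (π y) :=
      hmin (show (x, y) ∈ {q : X × X | δ ≤ dist q.1 q.2} from not_lt.1 hcon)
    have h2 : dist (π x) (π y) < dist (π q.1) (π q.2) := by
      rw [dist_pi_lt_iff hpos]
      intro j
      rw [Real.dist_eq]
      have := hxy j
      linarith
    linarith

/-- If a compact metric space has, for every `ε`, a continuous map to `ℝ ^ d` with fibres of
diameter less than `ε`, then its covering dimension is less than `2 ^ d`. -/
theorem covDim_of_maps (X : Type) [MetricSpace X] [CompactSpace X] (d : ℕ)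
    (h : ∀ ε : ℝ, 0 < ε → ∃ π : X → Fin d → ℝ, Continuous π ∧ ∀ x y, π x = π y → dist x y < ε) :
    CovDimLE X (2 ^ d - 1) := by
  classical
  intro ι _ U hU hcov
  rcases isEmpty_or_nonempty X with hX | hX
  · refine ⟨Empty, inferInstance, fun _ => ∅, fun k => k.elim, ?_, fun k => k.elim,
      fun x => (hX.false x).elim⟩
    ext x
    exact (hX.false x).elim
  obtain ⟨δ, hδ, hleb⟩ := lebesgue_number_lemma_of_metric (isCompact_univ (X := X)) hU
    (by rw [hcov])
  obtain ⟨π, hπ, hfib⟩ := h δ hδ
  obtain ⟨η, hη, hun⟩ := unif_of_fibres π hπ hfib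
  obtain ⟨B, hB⟩ : ∃ B : ℝ, ∀ x j, |π x j| ≤ B := by
    obtain ⟨B, hB⟩ := (isCompact_univ (X := X)).exists_bound_of_continuousOn hπ.continuousOn
    refine ⟨B, fun x j => ?_⟩
    have h1 := hB x (Set.mem_univ x)
    have h2 := norm_le_pi_norm (π x) j
    rw [Real.norm_eq_abs] at h2
    exact h2.trans h1
  obtain ⟨R, hR⟩ := exists_nat_gt (B / η + 2)
  let J : Finset ℤ := Finset.Icc (-(R : ℤ)) R
  let V : (Fin d → J) → Set X := fun k =>
    {x | ∀ j, (((k j : J) : ℤ) : ℝ) * η < π x j ∧ π x j < ((((k j : J) : ℤ) : ℝ) + 2) * η}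
  refine ⟨Fin d → J, inferInstance, V, fun k => ?_, ?_, fun k => ?_, fun x => ?_⟩
  · have : V k = ⋂ j, {x | (((k j : J) : ℤ) : ℝ) * η < π x j ∧
        π x j < ((((k j : J) : ℤ) : ℝ) + 2) * η} := by
      ext x
      simp [V]
    rw [this]
    refine isOpen_iInter_of_finite fun j => ?_
    exact (isOpen_lt continuous_const ((continuous_apply j).comp hπ)).inter
      (isOpen_lt ((continuous_apply j).comp hπ) continuous_const)
  · rw [Set.eq_univ_iff_forall]
    intro x
    rw [Set.mem_iUnion]
    have hk : ∀ j, ⌈π x j / η⌉ - 1 ∈ J := by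
      intro j
      have h1 := hB x j
      rw [abs_le] at h1
      have h2 : π x j / η ≤ B / η := by
        apply div_le_div_of_nonneg_right h1.2 hη.le
      have h3 : -(B / η) ≤ π x j / η := by
        rw [← neg_div]
        apply div_le_div_of_nonneg_right h1.1 hη.le
      have h4 := Int.le_ceil (π x j / η)
      have h5 := Int.ceil_lt_add_one (π x j / η)
      rw [Finset.mem_Icc]
      constructor
      · have : (-(R : ℝ)) ≤ (⌈π x j / η⌉ : ℝ) - 1 := by linarith
        exact_mod_cast this
      · have : (⌈π x j / η⌉ : ℝ) - 1 ≤ (R : ℝ) := by linarith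
        exact_mod_cast this
    refine ⟨fun j => ⟨⌈π x j / η⌉ - 1, hk j⟩, fun j => ?_⟩
    have h4 := Int.le_ceil (π x j / η)
    have h5 := Int.ceil_lt_add_one (π x j / η)
    have h6 : π x j = π x j / η * η := by field_simp
    push_cast
    constructor
    · rw [h6]
      apply mul_lt_mul_of_pos_right _ hη
      rw [← h6]
      linarith
    · rw [h6]
      apply mul_lt_mul_of_pos_right _ hη
      rw [← h6]
      linarith
  · rcases Set.eq_empty_or_nonempty (V k) with he | ⟨x0, hx0⟩
    · obtain ⟨x⟩ := hX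
      have : x ∈ ⋃ i, U i := by rw [hcov]; exact Set.mem_univ x
      obtain ⟨i, -⟩ := Set.mem_iUnion.1 this
      exact ⟨i, by rw [he]; exact Set.empty_subset _⟩
    · obtain ⟨i, hi⟩ := hleb x0 (Set.mem_univ _)
      refine ⟨i, fun x hx => hi ?_⟩
      rw [Metric.mem_ball]
      apply hun
      intro j
      have h1 := hx j
      have h2 := hx0 j
      rw [abs_lt]
      constructor <;> nlinarith [h1.1, h1.2, h2.1, h2.2]
  · let g : (Fin d → J) → (Fin d → Bool) := fun k j =>
      decide (((k j : J) : ℤ) = ⌈π x j / η⌉ - 1)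
    have hinj : Set.InjOn g {k | x ∈ V k} := by
      have key : ∀ k ∈ {k | x ∈ V k}, ∀ j, ((k j : J) : ℤ) = ⌈π x j / η⌉ - 1 ∨
          ((k j : J) : ℤ) = ⌈π x j / η⌉ - 2 := by
        intro k hk j
        have h1 := hk j
        have h2 : (((k j : J) : ℤ) : ℝ) < π x j / η := by
          rw [lt_div_iff₀ hη]
          exact h1.1
        have h3 : π x j / η < ((((k j : J) : ℤ) : ℝ) + 2) := by
          rw [div_lt_iff₀ hη]
          exact h1.2
        have h4 : ((k j : J) : ℤ) < ⌈π x j / η⌉ := Int.lt_ceil.2 h2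
        have h5 : ⌈π x j / η⌉ ≤ ((k j : J) : ℤ) + 2 := by
          rw [Int.ceil_le]
          push_cast
          exact h3.le
        omega
      intro k hk k' hk' hkk
      funext j
      apply Subtype.ext
      have h1 := congrFun hkk j
      simp only [g, decide_eq_decide] at h1
      rcases key k hk j with h2 | h2 <;> rcases key k' hk' j with h3 | h3 <;> omega
    have h1 : Set.ncard {k | x ∈ V k} ≤ Set.ncard (Set.univ : Set (Fin d → Bool)) :=
      Set.ncard_le_ncard_of_injOn g (fun _ _ => Set.mem_univ _) hinj Set.finite_univ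
    have h2 : Set.ncard (Set.univ : Set (Fin d → Bool)) = 2 ^ d := by
      rw [Set.ncard_univ, Nat.card_eq_fintype_card]
      simp
    have h3 : 1 ≤ 2 ^ d := Nat.one_le_two_pow
    omega

end Run7.h5.FD
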