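import Pool.Agent.W764.LQ.CPT
import Pool.Agent.W168.LQ.Inj
import Pool.Agent.W381.LQ.Non

/-!
# The two-dimensional connected space

`X1 S` is the subspace of the space `X S` of the project LQ which consists of the points with at
most one radius different from one.
-/

set_option autoImplicit false

namespace Run7.h5.FD

open BoundedContinuousFunction Pool.Agent.W361.LQ Topology

/-- The parameters belonging to the set `S`, with at most one radius different from one. -/
def K1 (S : Set ℕ) : Set Pm := {a | a ∈ K S ∧ ∀ m n, a.2.1 m ≠ 1 → a.2.1 n ≠ 1 → m = n}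

/-- The space. -/
def X1 (S : Set ℕ) : Set (ℕ →ᵇ ℝ × ℝ × ℝ) := Phi '' K1 S

/-- The point of the space with parameter `a`. -/
noncomputable def pt1 (S : Set ℕ) (a : Pm) (h : a ∈ K1 S) : X1 S := ⟨Phi a, a, h, rfl⟩

theorem continuous_rad (n : ℕ) : Continuous fun a : Pm => a.2.1 n :=
  (continuous_apply n).comp (continuous_fst.comp continuous_snd)

theorem continuous_ang (n : ℕ) : Continuous fun a : Pm => a.2.2 n :=
  (continuous_apply n).comp (continuous_snd.comp continuous_snd)

theorem isClosed_K1 (S : Set ℕ) : IsClosed (K1 S) := by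
  have h1 : K1 S = K S ∩ ⋂ m, ⋂ n, {a : Pm | a.2.1 m ≠ 1 → a.2.1 n ≠ 1 → m = n} := by
    ext a
    simp only [K1, Set.mem_ofPred_eq, Set.mem_inter_iff, Set.mem_iInter]
  rw [h1]
  refine (Pool.Agent.W764.LQ.isClosed_K S).inter (isClosed_iInter fun m => isClosed_iInter fun n => ?_)
  by_cases hmn : m = n
  · have : {a : Pm | a.2.1 m ≠ 1 → a.2.1 n ≠ 1 → m = n} = Set.univ := by
      ext a
      simp [hmn]
    rw [this]
    exact isClosed_univ
  · have : {a : Pm | a.2.1 m ≠ 1 → a.2.1 n ≠ 1 → m = n} =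
        {a : Pm | a.2.1 m = 1} ∪ {a : Pm | a.2.1 n = 1} := by
      ext a
      simp only [Set.mem_ofPred_eq, Set.mem_union]
      constructor
      · intro h
        by_contra hcon
        push Not at hcon
        exact hmn (h hcon.1 hcon.2)
      · rintro (h | h) h1 h2
        · exact absurd h h1
        · exact absurd h h2
    rw [this]
    exact (isClosed_eq (continuous_rad m) continuous_const).union
      (isClosed_eq (continuous_rad n) continuous_const)

theorem isCompact_K1 (S : Set ℕ) : IsCompact (K1 S) := (isClosed_K1 S).isCompact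

theorem isCompact_X1 (S : Set ℕ) : IsCompact (X1 S) :=
  (isCompact_K1 S).image Pool.Agent.W764.LQ.continuous_Phi

/-! ## Continuous maps on the space -/

/-- A continuous function of the parameter which is constant on the fibres of `Phi` is a continuous
function on the space. -/
theorem factor (S : Set ℕ) {Z : Type} [TopologicalSpace Z] (φ : Pm → Z) (hφ : Continuous φ)
    (h : ∀ a ∈ K1 S, ∀ b ∈ K1 S, Phi a = Phi b → φ a = φ b) :
    ∃ f : X1 S → Z, Continuous f ∧ ∀ (a : Pm) (ha : a ∈ K1 S), f (pt1 S a ha) = φ a := by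
  have : CompactSpace (K1 S) := isCompact_iff_compactSpace.mp (isCompact_K1 S)
  obtain ⟨p, hpdef⟩ : ∃ p : K1 S → X1 S, p = fun a => pt1 S a.1 a.2 := ⟨_, rfl⟩
  have hp : Continuous p := by
    rw [hpdef]
    exact Continuous.subtype_mk (Pool.Agent.W764.LQ.continuous_Phi.comp continuous_subtype_val) _
  have hs : Function.Surjective p := by
    rw [hpdef]
    rintro ⟨_, a, ha, rfl⟩
    exact ⟨⟨a, ha⟩, rfl⟩
  have hv : ∀ a, (p a).1 = Phi a.1 := by
    intro a
    rw [hpdef]
    rfl
  have hq : IsQuotientMap p := hp.isClosedMap.isQuotientMap hp hs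
  have hval : ∀ a b : K1 S, p a = p b → φ a.1 = φ b.1 := by
    intro a b hab
    refine h a.1 a.2 b.1 b.2 ?_
    rw [← hv, ← hv, hab]
  have hc : (fun x => φ (Function.surjInv hs x).1) ∘ p = fun a => φ a.1 := by
    funext a
    exact hval _ _ (Function.surjInv_eq hs (p a))
  refine ⟨fun x => φ (Function.surjInv hs x).1, ?_, fun a ha => ?_⟩
  · rw [hq.continuous_iff, hc]
    exact hφ.comp continuous_subtype_val
  · have h1 : p ⟨a, ha⟩ = pt1 S a ha := by rw [hpdef]
    have h2 := congrFun hc ⟨a, ha⟩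
    rw [← h1]
    exact h2

theorem div1 (S : Set ℕ) : ∃ f : C(X1 S, UnitAddCircle),
    (∀ (a : Pm) (h : a ∈ K1 S), f (pt1 S a h) = a.1) ∧
      ∀ n ∈ S, ∃ g : C(X1 S, UnitAddCircle), ∀ x, M n • g x = f x := by
  obtain ⟨f, hf, hfv⟩ := factor S (fun a => a.1) continuous_fst
    (fun a _ b _ hab => (Pool.Agent.W168.LQ.main a b hab).1)
  refine ⟨⟨f, hf⟩, hfv, fun n hn => ?_⟩
  have h01 : (1 : unitInterval) ≠ 0 := one_ne_zero
  obtain ⟨g, hg, hgv⟩ := factor S (fun a => a.2.2 n) (continuous_ang n)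
    (fun a ha b _ hab => ((Pool.Agent.W168.LQ.main a b hab).2 n).2 (by
      rw [(ha.1 n).2 hn]
      exact h01))
  refine ⟨⟨g, hg⟩, ?_⟩
  rintro ⟨_, a, ha, rfl⟩
  have e1 := hgv a ha
  have e2 := hfv a ha
  change M n • g (pt1 S a ha) = f (pt1 S a ha)
  rw [e1, e2]
  exact (ha.1 n).1

open Pool.Agent.W381.LQ in
theorem ph_mem1 {S : Set ℕ} {n : ℕ} (hn : n ∉ S) (t : ℝ) : ph n t ∈ K1 S := by
  refine ⟨ph_mem hn t, fun i j hi hj => ?_⟩
  have key : ∀ i, (ph n t).2.1 i ≠ 1 → i = n := by
    intro i hi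
    by_contra hcon
    exact hi (if_neg hcon)
  rw [key i hi, key j hj]

open Pool.Agent.W381.LQ in
theorem non1 (S : Set ℕ) (f g : C(X1 S, UnitAddCircle)) (n : ℕ)
    (hf : ∀ (a : Pm) (h : a ∈ K1 S), f (pt1 S a h) = a.1) (hg : ∀ x, M n • g x = f x) : n ∈ S := by
  by_contra hn
  -- the path in the space
  let p : ℝ → X1 S := fun t => pt1 S (ph n t) (ph_mem1 hn t)
  have hp : Continuous p := Continuous.subtype_mk (cont_Phi n) _
  let h : ℝ → UnitAddCircle := fun t => g (p t)
  have hh : Continuous h := g.continuous.comp hp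
  have hM : (0 : ℝ) < M n := Pool.Agent.W381.LQ.M_pos n
  have hhM : ∀ t : ℝ, M n • h t = (t : UnitAddCircle) := fun t => by
    change M n • g (p t) = _
    rw [hg, hf]
    rfl
  let u : ℝ → UnitAddCircle := fun t => h t - ((t / M n : ℝ) : UnitAddCircle)
  have hu : Continuous u := by
    refine hh.sub ?_
    exact (AddCircle.continuous_mk' (1 : ℝ)).comp (continuous_id.div_const _)
  have huM : ∀ t, M n • u t = 0 := fun t => by
    change M n • (h t - ((t / M n : ℝ) : UnitAddCircle)) = 0
    rw [nsmul_sub, hhM, nsmul_div (M n) hM, sub_self]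
  have hloc : IsLocallyConstant u := by
    rw [IsLocallyConstant.iff_eventually_eq]
    intro x
    have h1 : ∀ᶠ y in 𝓝 x, dist (u y) (u x) < 1 / (M n : ℝ) :=
      (hu.tendsto x).eventually (Metric.ball_mem_nhds _ (by positivity))
    filter_upwards [h1] with y hy
    rw [dist_eq_norm] at hy
    have h2 : M n • (u y - u x) = 0 := by rw [nsmul_sub, huM, huM, sub_self]
    exact sub_eq_zero.1 (tor h2 hy)
  have hconst : ∀ t, u t = u 0 := fun t => hloc.apply_eq_of_preconnectedSpace t 0
  have hform : ∀ t, h t - h 0 = ((t / M n : ℝ) : UnitAddCircle) := fun t => by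
    have h1 := hconst t
    change h t - ((t / M n : ℝ) : UnitAddCircle) = h 0 - (((0 : ℝ) / M n : ℝ) : UnitAddCircle) at h1
    rw [zero_div, AddCircle.coe_zero, sub_zero] at h1
    rw [← h1]
    abel
  -- the special times
  have ht : Filter.Tendsto (fun k : ℕ => p (tk n k)) Filter.atTop (𝓝 (p 0)) := by
    rw [tendsto_iff_dist_tendsto_zero]
    refine squeeze_zero (fun _ => dist_nonneg) (fun k => dist_tk n k) ?_
    exact tendsto_pow_atTop_nhds_zero_of_lt_one (by norm_num) (by norm_num)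
  have hg2 : Filter.Tendsto (fun k : ℕ => h (tk n k)) Filter.atTop (𝓝 (h 0)) :=
    (g.continuous.tendsto (p 0)).comp ht
  have hev : ∀ᶠ k : ℕ in Filter.atTop, dist (h (tk n k)) (h 0) < 1 / (M n : ℝ) :=
    hg2.eventually (Metric.ball_mem_nhds _ (by positivity))
  obtain ⟨k, hk⟩ := hev.exists
  rw [dist_eq_norm, hform] at hk
  have h3 : M n • ((((tk n k : ℕ) : ℝ) / M n : ℝ) : UnitAddCircle) = 0 := by
    rw [nsmul_div (M n) hM, coe_nat]
  have h4 := tor h3 hk
  rw [AddCircle.coe_eq_zero_iff] at h4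
  obtain ⟨m, hm⟩ := h4
  have h5 : ((tk n k : ℕ) : ℝ) = (M n : ℝ) * m := by
    have : (m : ℝ) = ((tk n k : ℕ) : ℝ) / M n := by simpa using hm
    rw [this]; field_simp
  have h6 : ((tk n k : ℕ) : ℤ) = (M n : ℤ) * m := by exact_mod_cast h5
  have h7 : M n ∣ tk n k := by
    have : (M n : ℤ) ∣ ((tk n k : ℕ) : ℤ) := ⟨m, h6⟩
    exact_mod_cast this
  have h8 : Nat.Coprime (M n) (tk n k) := by
    unfold tk
    refine Nat.Coprime.prod_right fun j hj => ?_
    have hne : n ≠ j := (Finset.ne_of_mem_erase hj).symm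
    exact Nat.coprime_fermatNumber_fermatNumber hne
  have h9 : M n = 1 := Nat.eq_one_of_dvd_coprimes h8 dvd_rfl h7
  have : 2 ≤ M n := by
    unfold M
    have : 0 < 2 ^ 2 ^ n := by positivity
    omega
  omega

/-! ## Connectedness -/

/-- The solenoid. -/
def Sol : Set (UnitAddCircle × (ℕ → UnitAddCircle)) := {a | ∀ n, M n • a.2 n = a.1}

/-- The one-parameter subgroup of the solenoid. -/
noncomputable def gam (t : ℝ) : UnitAddCircle × (ℕ → UnitAddCircle) :=
  ((t : UnitAddCircle), fun n => ((t / M n : ℝ) : UnitAddCircle))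

theorem continuous_gam : Continuous gam := by
  unfold gam
  refine (AddCircle.continuous_mk' (1 : ℝ)).prodMk (continuous_pi fun n => ?_)
  exact (AddCircle.continuous_mk' (1 : ℝ)).comp (continuous_id.div_const _)

theorem gam_mem (t : ℝ) : gam t ∈ Sol := fun n =>
  Pool.Agent.W381.LQ.nsmul_div (M n) (Pool.Agent.W381.LQ.M_pos n) t

theorem coe_int_zero (z : ℤ) : ((z : ℝ) : UnitAddCircle) = 0 := by
  rw [AddCircle.coe_eq_zero_iff]
  exact ⟨z, by simp⟩

/-- Every point of the solenoid agrees with a point of the one-parameter subgroup in the first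
coordinates. -/
theorem gam_agree (a : UnitAddCircle × (ℕ → UnitAddCircle)) (ha : a ∈ Sol) (N : ℕ) :
    ∃ t : ℝ, (gam t).1 = a.1 ∧ ∀ n < N, (gam t).2 n = a.2 n := by
  obtain ⟨t0, ht0, -⟩ := lift a.1
  have hj : ∀ n, ∃ j : ℤ, a.2 n = (((t0 + j) / M n : ℝ) : UnitAddCircle) := by
    intro n
    obtain ⟨v, hv, -⟩ := lift (a.2 n)
    have h2 : ((M n * v - t0 : ℝ) : UnitAddCircle) = 0 := by
      have h3 := ha n
      rw [← hv, ← ht0, ← AddCircle.coe_nsmul, nsmul_eq_mul] at h3
      rw [AddCircle.coe_sub, h3, sub_self]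
    rw [AddCircle.coe_eq_zero_iff] at h2
    obtain ⟨z, hz⟩ := h2
    have hz' : (z : ℝ) = M n * v - t0 := by simpa using hz
    refine ⟨z, ?_⟩
    rw [← hv]
    congr 1
    rw [hz', eq_div_iff (Pool.Agent.W381.LQ.M_pos n).ne']
    ring
  choose j hj using hj
  -- a common value modulo all the numbers
  have hM0 : ∀ n, M n ≠ 0 := fun n => (Nat.succ_ne_zero _)
  let r : ℕ → ℕ := fun n => (j n % (M n : ℤ)).toNat
  obtain ⟨m, hm⟩ := Nat.chineseRemainderOfFinset r M (Finset.range N) (fun i _ => hM0 i)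
    (fun i _ k _ hik => Nat.coprime_fermatNumber_fermatNumber hik)
  refine ⟨t0 + m, ?_, fun n hn => ?_⟩
  · change ((t0 + m : ℝ) : UnitAddCircle) = a.1
    rw [AddCircle.coe_add, Pool.Agent.W381.LQ.coe_nat, add_zero, ht0]
  · change (((t0 + m) / M n : ℝ) : UnitAddCircle) = a.2 n
    have h1 := hm n (Finset.mem_range.2 hn)
    have h2 : ((r n : ℕ) : ℤ) = j n % (M n : ℤ) :=
      Int.toNat_of_nonneg (Int.emod_nonneg _ (by exact_mod_cast hM0 n))
    have h3 : (m : ℤ) ≡ j n [ZMOD (M n : ℤ)] := by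
      have h4 : ((m : ℕ) : ℤ) ≡ ((r n : ℕ) : ℤ) [ZMOD (M n : ℤ)] :=
        (Int.natCast_modEq_iff).2 h1
      refine h4.trans ?_
      rw [h2]
      exact Int.mod_modEq _ _
    obtain ⟨z, hz⟩ := h3.symm.dvd
    have hz' : (m : ℝ) = j n + M n * z := by
      have : (m : ℤ) = j n + M n * z := by linarith
      exact_mod_cast this
    rw [hj n]
    have h5 : (t0 + m) / M n = (t0 + j n) / M n + z := by
      rw [hz']
      have := (Pool.Agent.W381.LQ.M_pos n).ne'
      field_simp
      ring
    rw [h5, AddCircle.coe_add, coe_int_zero, add_zero]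

theorem isPreconnected_Sol : IsPreconnected Sol := by
  have h1 : IsPreconnected (Set.range gam) := isPreconnected_range continuous_gam
  refine h1.subset_closure ?_ ?_
  · rintro _ ⟨t, rfl⟩
    exact gam_mem t
  · intro a ha
    choose t ht using gam_agree a ha
    refine mem_closure_of_tendsto (f := fun N => gam (t N)) (b := Filter.atTop) ?_
      (Filter.Eventually.of_forall fun N => ⟨t N, rfl⟩)
    refine Filter.Tendsto.prodMk_nhds ?_ ?_
    · refine tendsto_const_nhds.congr fun N => ?_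
      exact (ht N).1.symm
    · rw [tendsto_pi_nhds]
      intro n
      refine tendsto_const_nhds.congr' ?_
      filter_upwards [Filter.eventually_gt_atTop n] with N hN
      exact ((ht N).2 n hN).symm

/-- The possible radii. -/
def Rad (S : Set ℕ) : Set (ℕ → unitInterval) :=
  {r | (∀ n ∈ S, r n = 1) ∧ ∀ m n, r m ≠ 1 → r n ≠ 1 → m = n}

theorem isPreconnected_Rad (S : Set ℕ) : IsPreconnected (Rad S) := by
  refine isPreconnected_of_forall (fun _ => 1) fun r hr => ?_
  let φ : unitInterval → ℕ → unitInterval := fun t n => max (r n) t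
  have hφ : Continuous φ := continuous_pi fun n => continuous_const.max continuous_id
  refine ⟨Set.range φ, ?_, ⟨1, ?_⟩, ⟨0, ?_⟩, isPreconnected_range hφ⟩
  · rintro _ ⟨t, rfl⟩
    have key : ∀ n, r n = 1 → φ t n = 1 := by
      intro n hn
      change max (r n) t = 1
      rw [hn]
      exact max_eq_left unitInterval.le_one'
    refine ⟨fun n hn => key n (hr.1 n hn), fun m n hm hn => ?_⟩
    exact hr.2 m n (fun h => hm (key m h)) (fun h => hn (key n h))
  · funext n
    exact max_eq_right unitInterval.le_one'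
  · funext n
    exact max_eq_left unitInterval.nonneg'

theorem isConnected_K1 (S : Set ℕ) : IsConnected (K1 S) := by
  have h1 : IsPreconnected (Sol ×ˢ Rad S) := isPreconnected_Sol.prod (isPreconnected_Rad S)
  let σ : (UnitAddCircle × (ℕ → UnitAddCircle)) × (ℕ → unitInterval) → Pm :=
    fun p => (p.1.1, p.2, p.1.2)
  have hσ : Continuous σ :=
    (continuous_fst.comp continuous_fst).prodMk
      (continuous_snd.prodMk (continuous_snd.comp continuous_fst))
  have h2 : K1 S = σ '' (Sol ×ˢ Rad S) := by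
    ext a
    constructor
    · rintro ⟨h3, h4⟩
      exact ⟨((a.1, a.2.2), a.2.1), ⟨fun n => (h3 n).1, fun n hn => (h3 n).2 hn, h4⟩, rfl⟩
    · rintro ⟨p, ⟨h3, h4, h5⟩, rfl⟩
      exact ⟨fun n => ⟨h3 n, fun hn => h4 n hn⟩, h5⟩
  constructor
  · refine ⟨(0, fun _ => 1, fun _ => 0), fun n => ⟨?_, fun _ => rfl⟩, fun m n hm _ => ?_⟩
    · exact smul_zero (M n)
    · exact absurd rfl hm
  · rw [h2]
    exact h1.image σ hσ.continuousOn

theorem isConnected_X1 (S : Set ℕ) : IsConnected (X1 S) :=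
  (isConnected_K1 S).image Phi Pool.Agent.W764.LQ.continuous_Phi.continuousOn

end Run7.h5.FD
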