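import Pool.Agent.Run7.h5.FD.Dim
import Pool.Agent.Run7.h5.FD.Space

/-!
# The space has finite covering dimension
-/

set_option autoImplicit false

namespace Run7.h5.FD

open BoundedContinuousFunction Pool.Agent.W361.LQ Topology

/-- The angles with numbers in a finite set are multiples of one angle. -/
theorem comb (T : Finset ℕ) : ∃ (u : Pm → UnitAddCircle) (κ : ℕ → ℕ), Continuous u ∧
    (∀ a b : Pm, a.1 = b.1 → (∀ m ∈ T, a.2.2 m = b.2.2 m) → u a = u b) ∧
    ∀ a : Pm, (∀ m, M m • a.2.2 m = a.1) →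
      (∏ m ∈ T, M m) • u a = a.1 ∧ ∀ m ∈ T, κ m • u a = a.2.2 m := by
  classical
  induction T using Finset.induction_on with
  | empty =>
    refine ⟨fun a => a.1, fun _ => 0, continuous_fst, fun a b h _ => h, fun a _ => ⟨?_, ?_⟩⟩
    · simp
    · intro m hm
      simp at hm
  | insert m T hm ih =>
    obtain ⟨u, κ, hu, hdep, hval⟩ := ih
    have hcop : Nat.Coprime (∏ m ∈ T, M m) (M m) := by
      refine Nat.Coprime.prod_left fun j hj => ?_
      have hne : j ≠ m := fun h => hm (h ▸ hj)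
      exact Nat.coprime_fermatNumber_fermatNumber hne
    set Q := ∏ m ∈ T, M m with hQ
    obtain ⟨x, y, hxy⟩ : IsCoprime (Q : ℤ) (M m : ℤ) := Nat.isCoprime_iff_coprime.2 hcop
    refine ⟨fun a => x • a.2.2 m + y • u a, fun n => if n = m then Q else M m * κ n, ?_, ?_, ?_⟩
    · exact ((continuous_ang m).const_smul x).add (hu.const_smul y)
    · intro a b h1 h2
      have h3 : u a = u b := hdep a b h1 fun n hn => h2 n (Finset.mem_insert_of_mem hn)
      change x • a.2.2 m + y • u a = x • b.2.2 m + y • u b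
      rw [h3, h2 m (Finset.mem_insert_self m T)]
    · intro a ha
      obtain ⟨h1, h2⟩ := hval a ha
      have e1 : M m • (x • a.2.2 m + y • u a) = u a := by
        have h3 : M m • (x • a.2.2 m + y • u a) = x • (M m • a.2.2 m) + (y * M m) • u a := by
          rw [smul_add, smul_comm (M m) x, smul_comm (M m) y, mul_smul, natCast_zsmul]
        have h4 : y * (M m : ℤ) = 1 - x * Q := by linarith
        rw [h3, h4, ha m, sub_smul, one_smul, mul_smul, natCast_zsmul, h1]
        abel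
      have e2 : Q • (x • a.2.2 m + y • u a) = a.2.2 m := by
        have h3 : Q • (x • a.2.2 m + y • u a) = (x * Q) • a.2.2 m + y • (Q • u a) := by
          rw [smul_add, smul_comm Q x, smul_comm Q y, mul_smul, natCast_zsmul]
        have h4 : x * (Q : ℤ) = 1 - y * M m := by linarith
        rw [h3, h4, h1, sub_smul, one_smul, mul_smul, natCast_zsmul, ha m]
        abel
      refine ⟨?_, fun n hn => ?_⟩
      · rw [Finset.prod_insert hm, mul_comm, mul_smul]
        change Q • (M m • (x • a.2.2 m + y • u a)) = a.1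
        rw [e1, h1]
      · change (if n = m then Q else M m * κ n) • (x • a.2.2 m + y • u a) = a.2.2 n
        by_cases h : n = m
        · rw [if_pos h, e2, h]
        · rw [if_neg h, mul_comm, mul_smul, e1]
          exact h2 n (Finset.mem_of_mem_insert_of_ne hn h)

theorem dist_of_agree (a b : Pm) (N : ℕ) (h : ∀ i ≤ N, crd a i = crd b i) :
    dist (Phi a) (Phi b) ≤ (1 / 2 : ℝ) ^ N := by
  rw [BoundedContinuousFunction.dist_le (by positivity)]
  intro i
  rw [Phi_apply, Phi_apply]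
  rcases Nat.lt_or_ge N i with hi | hi
  · have h1 := norm_crd_le' a i
    have h2 := norm_crd_le' b i
    have h3 : (1 / 2 : ℝ) ^ i ≤ (1 / 2 : ℝ) ^ (N + 1) :=
      pow_le_pow_of_le_one (by norm_num) (by norm_num) hi
    have h4 : (1 / 2 : ℝ) ^ (N + 1) = (1 / 2 : ℝ) ^ N / 2 := by rw [pow_succ]; ring
    have h5 := dist_le_norm_add_norm (crd a i) (crd b i)
    linarith
  · rw [h i hi, dist_self]
    positivity

theorem sum_single {S : Set ℕ} {a : Pm} (ha : a ∈ K1 S) {N n : ℕ} (hn : n < N)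
    (h : a.2.1 n ≠ 1) (c : ℕ → ℝ) :
    ∑ m ∈ Finset.range N, (1 - (a.2.1 m : ℝ)) * c m = (1 - (a.2.1 n : ℝ)) * c n := by
  refine Finset.sum_eq_single n (fun m _ hmn => ?_) (fun h' => absurd (Finset.mem_range.2 hn) h')
  have h1 : a.2.1 m = 1 := by
    by_contra hcon
    exact hmn (ha.2 m n hcon h)
  rw [h1]
  simp

theorem prod_single {S : Set ℕ} {a : Pm} (ha : a ∈ K1 S) {N n : ℕ} (hn : n < N)
    (h : a.2.1 n ≠ 1) : ∏ m ∈ Finset.range N, (a.2.1 m : ℝ) = (a.2.1 n : ℝ) := by
  refine Finset.prod_eq_single n (fun m _ hmn => ?_) (fun h' => absurd (Finset.mem_range.2 hn) h')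
  have h1 : a.2.1 m = 1 := by
    by_contra hcon
    exact hmn (ha.2 m n hcon h)
  rw [h1]
  simp

theorem one_sub_pos {r : unitInterval} (h : r ≠ 1) : 0 < 1 - (r : ℝ) := by
  have h1 : (r : ℝ) ≠ 1 := fun h2 => h (Subtype.ext h2)
  have h2 := r.2.2
  have h3 : (r : ℝ) < 1 := lt_of_le_of_ne h2 h1
  linarith

/-- Finitely many coordinates are described by six real numbers. -/
theorem small_fibres (S : Set ℕ) (N : ℕ) : ∃ π : X1 S → Fin 6 → ℝ, Continuous π ∧
    ∀ x y, π x = π y → dist x y ≤ (1 / 2 : ℝ) ^ N := by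
  classical
  obtain ⟨u, κ, hu, hdep, hval⟩ := comb (Finset.range N)
  choose v κ' hv hdep' hval' using fun n => comb ((Finset.range N).erase n)
  let q : UnitAddCircle := ((1 / 4 : ℝ) : UnitAddCircle)
  let φ : Pm → Fin 6 → ℝ := fun a => ![
    ∑ m ∈ Finset.range N, (1 - (a.2.1 m : ℝ)) * 1,
    ∑ m ∈ Finset.range N, (1 - (a.2.1 m : ℝ)) * ((m : ℝ) + 1),
    (∏ m ∈ Finset.range N, (a.2.1 m : ℝ)) * ‖u a‖,
    (∏ m ∈ Finset.range N, (a.2.1 m : ℝ)) * ‖u a + q‖,
    ∑ m ∈ Finset.range N, (1 - (a.2.1 m : ℝ)) * ‖v m a‖,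
    ∑ m ∈ Finset.range N, (1 - (a.2.1 m : ℝ)) * ‖v m a + q‖]
  have hr : ∀ m : ℕ, Continuous fun a : Pm => (a.2.1 m : ℝ) := fun m =>
    continuous_subtype_val.comp (continuous_rad m)
  have hφ : Continuous φ := by
    refine continuous_pi fun i => ?_
    fin_cases i
    · change Continuous fun a : Pm => ∑ m ∈ Finset.range N, (1 - (a.2.1 m : ℝ)) * 1
      exact continuous_finsetSum _ fun m _ => (continuous_const.sub (hr m)).mul continuous_const
    · change Continuous fun a : Pm => ∑ m ∈ Finset.range N, (1 - (a.2.1 m : ℝ)) * ((m : ℝ) + 1)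
      exact continuous_finsetSum _ fun m _ => (continuous_const.sub (hr m)).mul continuous_const
    · change Continuous fun a : Pm => (∏ m ∈ Finset.range N, (a.2.1 m : ℝ)) * ‖u a‖
      exact (continuous_finsetProd _ fun m _ => hr m).mul hu.norm
    · change Continuous fun a : Pm => (∏ m ∈ Finset.range N, (a.2.1 m : ℝ)) * ‖u a + q‖
      exact (continuous_finsetProd _ fun m _ => hr m).mul (hu.add continuous_const).norm
    · change Continuous fun a : Pm => ∑ m ∈ Finset.range N, (1 - (a.2.1 m : ℝ)) * ‖v m a‖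
      exact continuous_finsetSum _ fun m _ => (continuous_const.sub (hr m)).mul (hv m).norm
    · change Continuous fun a : Pm => ∑ m ∈ Finset.range N, (1 - (a.2.1 m : ℝ)) * ‖v m a + q‖
      exact continuous_finsetSum _ fun m _ =>
        (continuous_const.sub (hr m)).mul ((hv m).add continuous_const).norm
  obtain ⟨π, hπ, hπv⟩ := factor S φ hφ (by
    intro a ha b hb hab
    obtain ⟨h1, h2⟩ := Pool.Agent.W168.LQ.main a b hab
    have e1 : ∀ m, a.2.1 m = b.2.1 m := fun m => (h2 m).1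
    have hprod : ∀ w : UnitAddCircle → ℝ, (∏ m ∈ Finset.range N, (a.2.1 m : ℝ)) * w (u a) =
        (∏ m ∈ Finset.range N, (b.2.1 m : ℝ)) * w (u b) := by
      intro w
      have h3 : ∏ m ∈ Finset.range N, (b.2.1 m : ℝ) = ∏ m ∈ Finset.range N, (a.2.1 m : ℝ) :=
        Finset.prod_congr rfl fun m _ => by rw [e1 m]
      rw [h3]
      by_cases h0 : ∀ m < N, a.2.1 m ≠ 0
      · have h4 : u a = u b := hdep a b h1 fun m hm => (h2 m).2 (h0 m (Finset.mem_range.1 hm))
        rw [h4]
      · push Not at h0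
        obtain ⟨m, hm, h0⟩ := h0
        have h4 : ∏ m ∈ Finset.range N, (a.2.1 m : ℝ) = 0 :=
          Finset.prod_eq_zero (Finset.mem_range.2 hm) (by rw [h0]; rfl)
        rw [h4, zero_mul, zero_mul]
    have hsum : ∀ w : UnitAddCircle → ℝ,
        ∑ m ∈ Finset.range N, (1 - (a.2.1 m : ℝ)) * w (v m a) =
        ∑ m ∈ Finset.range N, (1 - (b.2.1 m : ℝ)) * w (v m b) := by
      intro w
      refine Finset.sum_congr rfl fun m _ => ?_
      rw [← e1 m]
      by_cases h0 : a.2.1 m = 1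
      · rw [h0]
        simp
      · have h4 : v m a = v m b := hdep' m a b h1 fun n hn => (h2 n).2 (by
          have hne := Finset.ne_of_mem_erase hn
          intro h5
          have h6 : a.2.1 n ≠ 1 := by
            rw [h5]
            exact zero_ne_one
          exact hne (ha.2 n m h6 h0))
        rw [h4]
    funext i
    fin_cases i
    · change ∑ m ∈ Finset.range N, (1 - (a.2.1 m : ℝ)) * 1 =
        ∑ m ∈ Finset.range N, (1 - (b.2.1 m : ℝ)) * 1
      exact Finset.sum_congr rfl fun m _ => by rw [e1 m]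
    · change ∑ m ∈ Finset.range N, (1 - (a.2.1 m : ℝ)) * ((m : ℝ) + 1) =
        ∑ m ∈ Finset.range N, (1 - (b.2.1 m : ℝ)) * ((m : ℝ) + 1)
      exact Finset.sum_congr rfl fun m _ => by rw [e1 m]
    · exact hprod (fun w => ‖w‖)
    · exact hprod (fun w => ‖w + q‖)
    · exact hsum (fun w => ‖w‖)
    · exact hsum (fun w => ‖w + q‖))
  refine ⟨π, hπ, ?_⟩
  rintro ⟨_, a, ha, rfl⟩ ⟨_, b, hb, rfl⟩ hab
  change dist (Phi a) (Phi b) ≤ _
  have hab' : φ a = φ b := by
    rw [← hπv a ha, ← hπv b hb]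
    exact hab
  have c0 : ∑ m ∈ Finset.range N, (1 - (a.2.1 m : ℝ)) * 1 =
      ∑ m ∈ Finset.range N, (1 - (b.2.1 m : ℝ)) * 1 := congrFun hab' 0
  have c1 : ∑ m ∈ Finset.range N, (1 - (a.2.1 m : ℝ)) * ((m : ℝ) + 1) =
      ∑ m ∈ Finset.range N, (1 - (b.2.1 m : ℝ)) * ((m : ℝ) + 1) := congrFun hab' 1
  have c2 : (∏ m ∈ Finset.range N, (a.2.1 m : ℝ)) * ‖u a‖ =
      (∏ m ∈ Finset.range N, (b.2.1 m : ℝ)) * ‖u b‖ := congrFun hab' 2
  have c3 : (∏ m ∈ Finset.range N, (a.2.1 m : ℝ)) * ‖u a + q‖ =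
      (∏ m ∈ Finset.range N, (b.2.1 m : ℝ)) * ‖u b + q‖ := congrFun hab' 3
  have c4 : ∑ m ∈ Finset.range N, (1 - (a.2.1 m : ℝ)) * ‖v m a‖ =
      ∑ m ∈ Finset.range N, (1 - (b.2.1 m : ℝ)) * ‖v m b‖ := congrFun hab' 4
  have c5 : ∑ m ∈ Finset.range N, (1 - (a.2.1 m : ℝ)) * ‖v m a + q‖ =
      ∑ m ∈ Finset.range N, (1 - (b.2.1 m : ℝ)) * ‖v m b + q‖ := congrFun hab' 5
  -- it suffices that the parameters agree
  have fin : a.1 = b.1 → (∀ m < N, a.2.1 m = b.2.1 m ∧ (a.2.1 m ≠ 0 → a.2.2 m = b.2.2 m)) →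
      dist (Phi a) (Phi b) ≤ (1 / 2 : ℝ) ^ N := by
    intro h1 h2
    refine dist_of_agree a b N fun i hi => ?_
    unfold crd
    split_ifs with h0
    · rw [h1]
    · obtain ⟨h3, h4⟩ := h2 (i - 1) (by omega)
      by_cases h5 : a.2.1 (i - 1) = 0
      · rw [← h3, h5]
        simp [co]
      · rw [← h3, h4 h5]
  have hua := hval a fun m => (ha.1 m).1
  have hub := hval b fun m => (hb.1 m).1
  by_cases hA : ∃ n < N, a.2.1 n ≠ 1
  · obtain ⟨n, hn, hAn⟩ := hA
    have hB : ∃ n' < N, b.2.1 n' ≠ 1 := by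
      by_contra hcon
      push Not at hcon
      have h1 : ∑ m ∈ Finset.range N, (1 - (b.2.1 m : ℝ)) * 1 = 0 :=
        Finset.sum_eq_zero fun m hm => by
          rw [hcon m (Finset.mem_range.1 hm)]
          simp
      rw [h1, sum_single ha hn hAn] at c0
      have := one_sub_pos hAn
      linarith
    obtain ⟨n', hn', hBn⟩ := hB
    rw [sum_single ha hn hAn, sum_single hb hn' hBn] at c0 c1 c4 c5
    rw [prod_single ha hn hAn, prod_single hb hn' hBn] at c2 c3
    have pa := one_sub_pos hAn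
    have pb := one_sub_pos hBn
    have c0' : 1 - (a.2.1 n : ℝ) = 1 - (b.2.1 n' : ℝ) := by linarith
    have hnn : n = n' := by
      rw [c0'] at c1
      have := mul_left_cancel₀ pb.ne' c1
      have h2 : (n : ℝ) = n' := by linarith
      exact_mod_cast h2
    subst hnn
    have hr' : a.2.1 n = b.2.1 n := Subtype.ext (by linarith)
    rw [c0'] at c4 c5
    have hvv : v n a = v n b := Pool.Agent.W168.LQ.key (mul_left_cancel₀ pb.ne' c4)
      (mul_left_cancel₀ pb.ne' c5)
    have hva := hval' n a fun m => (ha.1 m).1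
    have hvb := hval' n b fun m => (hb.1 m).1
    have h1 : a.1 = b.1 := by rw [← hva.1, ← hvb.1, hvv]
    refine fin h1 fun m hm => ?_
    by_cases hmn : m = n
    · subst hmn
      refine ⟨hr', fun h0 => ?_⟩
      have h0' : ((a.2.1 m : unitInterval) : ℝ) ≠ 0 := fun h => h0 (Subtype.ext h)
      rw [← hr'] at c2 c3
      have huu : u a = u b := Pool.Agent.W168.LQ.key (mul_left_cancel₀ h0' c2)
        (mul_left_cancel₀ h0' c3)
      rw [← hua.2 m (Finset.mem_range.2 hm), ← hub.2 m (Finset.mem_range.2 hm), huu]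
    · have r1 : a.2.1 m = 1 := by
        by_contra hcon
        exact hmn (ha.2 m n hcon hAn)
      have r2 : b.2.1 m = 1 := by
        by_contra hcon
        exact hmn (hb.2 m n hcon hBn)
      have hm' : m ∈ (Finset.range N).erase n :=
        Finset.mem_erase.2 ⟨hmn, Finset.mem_range.2 hm⟩
      exact ⟨by rw [r1, r2], fun _ => by rw [← hva.2 m hm', ← hvb.2 m hm', hvv]⟩
  · push Not at hA
    have hB : ∀ n < N, b.2.1 n = 1 := by
      by_contra hcon
      push Not at hcon
      obtain ⟨n, hn, hBn⟩ := hcon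
      have h1 : ∑ m ∈ Finset.range N, (1 - (a.2.1 m : ℝ)) * 1 = 0 :=
        Finset.sum_eq_zero fun m hm => by
          rw [hA m (Finset.mem_range.1 hm)]
          simp
      rw [h1, sum_single hb hn hBn] at c0
      have := one_sub_pos hBn
      linarith
    have pa : ∏ m ∈ Finset.range N, (a.2.1 m : ℝ) = 1 := Finset.prod_eq_one fun m hm => by
      rw [hA m (Finset.mem_range.1 hm)]
      rfl
    have pb : ∏ m ∈ Finset.range N, (b.2.1 m : ℝ) = 1 := Finset.prod_eq_one fun m hm => by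
      rw [hB m (Finset.mem_range.1 hm)]
      rfl
    rw [pa, pb, one_mul, one_mul] at c2 c3
    have huu : u a = u b := Pool.Agent.W168.LQ.key c2 c3
    refine fin (by rw [← hua.1, ← hub.1, huu]) fun m hm => ⟨by rw [hA m hm, hB m hm], fun _ => ?_⟩
    rw [← hua.2 m (Finset.mem_range.2 hm), ← hub.2 m (Finset.mem_range.2 hm), huu]

theorem covDim_X1 (S : Set ℕ) : CovDimLE (X1 S) 63 := by
  have : CompactSpace (X1 S) := isCompact_iff_compactSpace.1 (isCompact_X1 S)
  refine covDim_of_maps (X1 S) 6 fun ε hε => ?_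
  obtain ⟨N, hN⟩ := exists_pow_lt_of_lt_one hε (show (1 / 2 : ℝ) < 1 by norm_num)
  obtain ⟨π, hπ, h⟩ := small_fibres S N
  exact ⟨π, hπ, fun x y hxy => (h x y hxy).trans_lt hN⟩

end Run7.h5.FD
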