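import Pool.Agent.W361.LQ.Fin
import Pool.Agent.W654.LQ.Dense
import Pool.Agent.W585.LQ.NM
import Pool.Agent.Run7.h5.FD.Space

/-!
# The dense sequence of the space
-/

set_option autoImplicit false

namespace Run7.h5.FD

open BoundedContinuousFunction Pool.Agent.W361.LQ Topology
open Pool.Agent.Helper227 Pool.Agent.H685R3
open Pool.Agent.W654.LQ.Dense (getD_map_range getD_nm fl_true smul_angle rep_exists angle dist_est
  floor_approx rho_le)
open Pool.Agent.W585.LQ.NM (ge p_ge p_raw aux aux3)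

/-- The list `L` with all second entries except the one with number `n` replaced by zero. -/
def one (n : ℕ) (L : List (ℕ × ℕ)) : List (ℕ × ℕ) :=
  (List.range L.length).map fun m => ((L.getD m (0, 0)).1, if m = n then (L.getD m (0, 0)).2 else 0)

theorem getD_one (n : ℕ) (L : List (ℕ × ℕ)) (m : ℕ) : (one n L).getD m (0, 0) =
    if m < L.length then ((L.getD m (0, 0)).1, if m = n then (L.getD m (0, 0)).2 else 0)
    else (0, 0) := by
  unfold one
  rw [getD_map_range]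

theorem length_one (n : ℕ) (L : List (ℕ × ℕ)) : (one n L).length = L.length := by
  simp [one]

/-- the code of the `k`-th point of the dense sequence of `X1 S` -/
def sq1 (T : ℕ → ℕ → Bool) (k : ℕ) : Cd :=
  ((raw k.unpair.2).1, (raw k.unpair.2).2.1,
    nm T (raw k.unpair.2).2.2.1 (one k.unpair.1 (raw k.unpair.2).2.2.2))

theorem rr_eq_one {c : Cd} {n : ℕ} (h : (c.2.2.getD n (0, 0)).2 = 0) : (pm c).2.1 n = 1 := by
  apply Subtype.ext
  change ((rho c n : ℕ) : ℝ) / 2 ^ c.2.1 = 1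
  unfold rho
  rw [h, Nat.zero_min, Nat.sub_zero]
  push_cast
  exact div_self (by positivity)

theorem sq1_mem (S : Set ℕ) (T : ℕ → ℕ → Bool) (hT : ∀ n, n ∉ S ↔ ∃ y, T n y = true) (k : ℕ) :
    pm (sq1 T k) ∈ K1 S := by
  refine ⟨fun n => ⟨smul_angle n _ _, fun hn => rr_eq_one ?_⟩, ?_⟩
  · have hf : fl T n (raw k.unpair.2).2.2.1 = false := by
      by_contra h
      rw [Bool.not_eq_false, fl_true] at h
      obtain ⟨y, _, hy⟩ := h
      exact (hT n).mpr ⟨y, hy⟩ hn
    unfold sq1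
    simp only
    rw [getD_nm, hf]
    split_ifs <;> simp_all
  · have key : ∀ n, (pm (sq1 T k)).2.1 n ≠ 1 → n = k.unpair.1 := by
      intro n hn
      by_contra hne
      apply hn
      apply rr_eq_one
      unfold sq1
      simp only
      rw [getD_nm, getD_one, if_neg hne]
      split_ifs <;> rfl
    intro m n hm hn
    rw [key m hm, key n hn]

theorem sq1_dense (S : Set ℕ) (T : ℕ → ℕ → Bool) (hT : ∀ n, n ∉ S ↔ ∃ y, T n y = true) :
    ∀ a ∈ K1 S, ∀ ε : ℝ, 0 < ε → ∃ k, dist (Phi a) (Phi (pm (sq1 T k))) < ε := by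
  intro a ha ε hε
  obtain ⟨N, hN⟩ := exists_pow_lt_of_lt_one (show (0 : ℝ) < ε / 4 by linarith)
    (show (1 / 2 : ℝ) < 1 by norm_num)
  obtain ⟨l, hl⟩ := exists_pow_lt_of_lt_one (show (0 : ℝ) < ε / 4 by linarith)
    (show (1 / 2 : ℝ) < 1 by norm_num)
  obtain ⟨t, ht0, ht1, ht⟩ := rep_exists a.1
  have hang : ∀ n, ∃ j : ℕ, a.2.2 n = (((t + j) / M n : ℝ) : UnitAddCircle) := by
    intro n
    apply angle n t ht1
    rw [(ha.1 n).1, ht]
  choose j hj using hang
  have hex : ∀ n, ∃ y, n ∉ S → T n y = true := by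
    intro n
    by_cases h : n ∈ S
    · exact ⟨0, fun h' => absurd h h'⟩
    · obtain ⟨y, hy⟩ := (hT n).mp h
      exact ⟨y, fun _ => hy⟩
  choose y hy using hex
  obtain ⟨s, hs⟩ : ∃ s, ∀ n < N, y n < s := by
    refine ⟨(Finset.range N).sup (fun n => y n + 1), fun n hn => ?_⟩
    have : y n + 1 ≤ (Finset.range N).sup (fun n => y n + 1) :=
      Finset.le_sup (f := fun n => y n + 1) (Finset.mem_range.mpr hn)
    omega
  obtain ⟨L, hLlen, hL⟩ : ∃ L : List (ℕ × ℕ), L.length = N ∧ ∀ n < N, L.getD n (0, 0) =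
      (j n, ⌊(1 - (a.2.1 n : ℝ)) * 2 ^ l⌋₊) := by
    refine ⟨(List.range N).map (fun n => (j n, ⌊(1 - (a.2.1 n : ℝ)) * 2 ^ l⌋₊)), by simp,
      fun n hn => ?_⟩
    rw [getD_map_range, if_pos hn]
  -- the number of the radius different from one
  obtain ⟨n0, hn0⟩ : ∃ n0, ∀ n, n ≠ n0 → a.2.1 n = 1 := by
    by_cases h : ∃ n, a.2.1 n ≠ 1
    · obtain ⟨n0, h0⟩ := h
      refine ⟨n0, fun n hn => ?_⟩
      by_contra hcon
      exact hn (ha.2 n n0 hcon h0)
    · push Not at h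
      exact ⟨0, fun n _ => h n⟩
  obtain ⟨k', hraw⟩ : ∃ k, raw k = (⌊t * 2 ^ l⌋₊, l, s, L) := by
    refine ⟨Encodable.encode ((⌊t * 2 ^ l⌋₊, l, s, L) : ℕ × ℕ × ℕ × List (ℕ × ℕ)), ?_⟩
    unfold raw
    rw [Encodable.encodek]
    rfl
  have hsq : sq1 T (Nat.pair n0 k') = (⌊t * 2 ^ l⌋₊, l, nm T s (one n0 L)) := by
    unfold sq1
    rw [Nat.unpair_pair, hraw]
  have hgetD : ∀ n < N, (nm T s (one n0 L)).getD n (0, 0) =
      (j n, ⌊(1 - (a.2.1 n : ℝ)) * 2 ^ l⌋₊) := by
    intro n hn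
    rw [getD_nm, length_one, hLlen, if_pos hn, getD_one, hLlen, if_pos hn, hL n hn]
    have hzero : a.2.1 n = 1 → ⌊(1 - (a.2.1 n : ℝ)) * 2 ^ l⌋₊ = 0 := by
      intro h
      rw [h]
      simp
    by_cases h1 : a.2.1 n = 1
    · rw [hzero h1]
      simp
    · have hnS : n ∉ S := fun h => h1 ((ha.1 n).2 h)
      have e2 : fl T n s = true := by
        rw [fl_true]
        exact ⟨y n, hs n hn, hy n hnS⟩
      have e3 : n = n0 := by
        by_contra hcon
        exact h1 (hn0 n hcon)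
      subst e3
      simp [e2]
  refine ⟨Nat.pair n0 k', ?_⟩
  rw [hsq]
  have := dist_est a (⌊t * 2 ^ l⌋₊, l, nm T s (one n0 L)) t N ε j hN hl ht hj
    (floor_approx t ht0 l) hgetD
  linarith

set_option maxHeartbeats 4000000 in
theorem p_one : Primrec₂ one := by
  have h1 : Primrec₂ fun (x : ℕ × List (ℕ × ℕ)) (m : ℕ) =>
      (((ge x.2 m).1, if m = x.1 then (ge x.2 m).2 else 0) : ℕ × ℕ) := by
    have g1 : Primrec fun z : (ℕ × List (ℕ × ℕ)) × ℕ => ge z.1.2 z.2 :=
      p_ge.comp (Primrec.snd.comp Primrec.fst) Primrec.snd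
    refine Primrec.pair (Primrec.fst.comp g1) ?_
    refine Primrec.ite ?_ (Primrec.snd.comp g1) (Primrec.const 0)
    exact Primrec.eq.comp Primrec.snd (Primrec.fst.comp Primrec.fst)
  have h2 : Primrec fun x : ℕ × List (ℕ × ℕ) => List.range x.2.length :=
    Primrec.list_range.comp (Primrec.list_length.comp Primrec.snd)
  exact (Primrec.list_map h2 h1).of_eq fun _ => rfl

attribute [local irreducible] raw nm one in
/-- The dense sequence is computable with the oracle. -/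
theorem sq1_comp (D : ℕ → Bool) (T : ℕ → ℕ → Bool)
    (hT : TLe (fun m => T m.unpair.1 m.unpair.2) D) :
    SI D fun x : ℕ × Cd => sq1 T x.1 = x.2 := by
  have hT' := tLe_iff_SI.1 hT
  obtain ⟨h1, h2⟩ := aux D T hT'
  have u1 : Primrec fun x : ℕ × Cd => x.1.unpair.1 :=
    Primrec.fst.comp (Primrec.unpair.comp Primrec.fst)
  have r1 : Primrec fun x : ℕ × Cd => raw x.1.unpair.2 :=
    p_raw.comp (Primrec.snd.comp (Primrec.unpair.comp Primrec.fst))
  have r2 : Primrec fun x : ℕ × Cd => (raw x.1.unpair.2).2 := Primrec.snd.comp r1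
  have r3 : Primrec fun x : ℕ × Cd => (raw x.1.unpair.2).2.2 := Primrec.snd.comp r2
  have r4 : Primrec fun x : ℕ × Cd => one x.1.unpair.1 (raw x.1.unpair.2).2.2.2 :=
    p_one.comp u1 (Primrec.snd.comp r3)
  have r5 : Primrec fun x : ℕ × Cd => ((raw x.1.unpair.2).1, (raw x.1.unpair.2).2.1,
      (raw x.1.unpair.2).2.2.1, one x.1.unpair.1 (raw x.1.unpair.2).2.2.2) :=
    (Primrec.fst.comp r1).pair ((Primrec.fst.comp r2).pair ((Primrec.fst.comp r3).pair r4))
  have key := aux3 D T h1 h2 _ (fun x : ℕ × Cd => x.2) r5 Primrec.snd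
  exact key.of_eq fun x => Iff.rfl

end Run7.h5.FD
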