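import Pool.Agent.W361.LQ.Fin
import Pool.Agent.W923.LQ.Val
import Pool.Agent.W641.LQ.APX
import Pool.Agent.W19.LQ.FP
import Pool.Agent.W89.LQ.Lt
import Pool.Agent.W918.LQ.CX
import Pool.Agent.W565.LQ.Near
import Pool.Agent.W311.LQ.Init
import Pool.Agent.W924.LQ.BACK
import Pool.Agent.W605.LQ.Forth
import Pool.Agent.W436.LQ.PI
import Pool.Agent.W162.LQ.Tab
import Pool.Agent.W952.LP.Low
import Pool.Agent.Run7.h5.FD.DimX
import Pool.Agent.Run7.h5.FD.Seq

/-!
# The finite-dimensional connected space: assembly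
-/

set_option autoImplicit false

namespace Run7.h5.FD

open BoundedContinuousFunction Pool.Agent.W361.LQ
open Pool.Agent.Helper227 Pool.Agent.H685R3
open Pool.Agent.W952.LP (zero)

/-- The construction: a degree `D` with `D'' ≤ 0''`, and a compact connected space of finite covering
dimension with a `D`-computable dense sequence, which is not homeomorphic to a space with a
computable dense sequence. -/
theorem main : ∃ D : ℕ → Bool, TLe (jump (jump D)) (jump (jump zero)) ∧
    ∃ S : Set ℕ, ∃ x : ℕ → X1 S, DenseRange x ∧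
      (∃ f : ℕ → ℕ,
        TuringReducible (fun m => Part.some (f m)) (chi D) ∧
        ∀ i j k : ℕ, |((f (Nat.pair i (Nat.pair j k))).unpair.1 : ℝ) /
          ((f (Nat.pair i (Nat.pair j k))).unpair.2 + 1) - dist (x i) (x j)| ≤ 1 / 2 ^ k) ∧
      (∀ (Q : Type) [MetricSpace Q], CompleteSpace Q →
        ∀ y : ℕ → Q, DenseRange y →
        (∃ h : ℕ → ℕ, Computable h ∧
          ∀ i j k : ℕ,
            |(h (Nat.pair i (Nat.pair j k)) : ℝ) / 2 ^ k - dist (y i) (y j)| ≤ 1 / 2 ^ k) →
        IsEmpty (X1 S ≃ₜ Q)) := by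
  obtain ⟨D, hD1, hD2⟩ := deg2 Pool.Agent.W952.LP.low Pool.Agent.W952.LP.inv
  obtain ⟨T, hT1, hT2⟩ := Pool.Agent.W162.LQTab.main D
  let S : Set ℕ := {n | jump D n = false}
  have hS : ∀ n, n ∉ S ↔ ∃ y, T n y = true := by
    intro n
    rw [← hT2 n]
    simp [S]
  have hmem := sq1_mem S T hS
  have hdense := sq1_dense S T hS
  have hcX : CompactSpace (X1 S) := isCompact_iff_compactSpace.1 (isCompact_X1 S)
  refine ⟨D, hD2, S, fun k => pt1 S (pm (sq1 T k)) (hmem k), ?_, ?_, ?_⟩
  · rw [Metric.denseRange_iff]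
    rintro ⟨_, a, ha, rfl⟩ r hr
    obtain ⟨k, hk⟩ := hdense a ha r hr
    exact ⟨k, hk⟩
  · have hG : Primrec fun x : Cd × Cd × ℕ => Nat.pair (F x.1 x.2.1 x.2.2) (2 ^ x.2.2 - 1) := by
      refine Primrec₂.natPair.comp Pool.Agent.W19.LQ.main ?_
      have hp : Primrec fun n : ℕ => 2 ^ n := by
        have := Primrec.nat_rec₁ (f := fun _ IH : ℕ => 2 * IH) 1
          (Primrec.nat_mul.comp (Primrec.const 2) Primrec.snd).to₂
        refine this.of_eq fun n => ?_
        induction n with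
        | zero => rfl
        | succ n ih =>
          rw [pow_succ, Nat.mul_comm, ← ih]
      exact Primrec.nat_sub.comp (hp.comp (Primrec.snd.comp Primrec.snd)) (Primrec.const 1)
    refine ⟨fun m : ℕ => Nat.pair (F (sq1 T m.unpair.1) (sq1 T m.unpair.2.unpair.1)
      m.unpair.2.unpair.2) (2 ^ m.unpair.2.unpair.2 - 1),
      comp' (G := fun c c' k => Nat.pair (F c c' k) (2 ^ k - 1)) hG (sq1_comp D T hT1),
      fun i j k => ?_⟩
    simp only [Nat.unpair_pair]
    have h1 := Pool.Agent.W641.LQ.apx Pool.Agent.W923.LQ.Val.main (sq1 T i) (sq1 T j) k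
    have h2 : (((2 ^ k - 1 : ℕ) : ℝ) + 1) = 2 ^ k := by
      rw [Nat.cast_sub Nat.one_le_two_pow]
      push_cast
      ring
    rw [h2]
    exact h1
  · intro Q _ _ y hy hpres
    obtain ⟨h, hh1, hh2⟩ := hpres
    refine ⟨fun φ => ?_⟩
    have hcQ : CompactSpace Q := φ.compactSpace
    obtain ⟨f, hf1, hf2⟩ := div1 S
    let f' : C(Q, UnitAddCircle) := ⟨fun q => f (φ.symm q), f.continuous.comp φ.symm.continuous⟩
    obtain ⟨C, d, hC⟩ := Pool.Agent.W311.LQ.main Q y hy f'
    obtain ⟨hL, hG⟩ := Pool.Agent.W89.LQ.Lt.main (fun i j => dist (y i) (y j)) h hh1 hh2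
    have key : ∀ n : ℕ, jump D n = false ↔ ∃ (E : List (ℕ × ℕ)) (e : ℕ),
        Cond (LtY y) (GtY y) C d (M n) E e := by
      intro n
      constructor
      · intro hn
        obtain ⟨g, hg⟩ := hf2 n hn
        let g' : C(Q, UnitAddCircle) :=
          ⟨fun q => g (φ.symm q), g.continuous.comp φ.symm.continuous⟩
        exact Pool.Agent.W605.LQ.Forth.main Pool.Agent.W565.LQ.Near.main Q y hy f' g' C d (M n)
          (M_pos n) hC fun q => hg (φ.symm q)
      · rintro ⟨E, e, hE⟩
        obtain ⟨g', hg'⟩ := Pool.Agent.W924.LQ.BACK.main Pool.Agent.W565.LQ.Near.main Q y hy f' C d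
          (M n) (M_pos n) hC E e hE
        let g : C(X1 S, UnitAddCircle) := ⟨fun x => g' (φ x), g'.continuous.comp φ.continuous⟩
        refine non1 S f g n hf1 fun x => ?_
        have h3 := hg' (φ x)
        simp only [f', ContinuousMap.coe_mk, Homeomorph.symm_apply_apply] at h3
        exact h3
    refine Pool.Agent.W436.LQ.main D hD1 ?_
    exact (Pool.Agent.W918.LQ.CX.main (LtY y) (GtY y) hL hG C d).of_eq fun n => (key n).symm

end Run7.h5.FD
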